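import Pool.Agent.Helper72.BP.Final

/-!
MP_1cfd37_ag, Q1: the statement `B_p` is false for every integer `p ≥ 2`.

All definitions used by the statement (compact nonsingular real algebraic varieties, NZ-subvarieties, bordism of singular manifolds,
algebraic classes, ε-isotopy, `B p`) are in `Pool/Agent/Helper79/BP/Stat.lean`.
-/

set_option autoImplicit false

namespace Pool.Agent.Results.MP_1cfd37_ag.NotBp

open Pool.Agent.Helper79.BP

/-- For every `p ≥ 2` the statement `B_p` is false. -/
theorem result : ∀ p : ℕ, 2 ≤ p → ¬ B p :=
  fun p hp => Pool.Agent.Helper72.BP.notB p hp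

end Pool.Agent.Results.MP_1cfd37_ag.NotBp
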